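import Pool.Agent.helper79.SX.Spec

set_option autoImplicit false

open Finset ArithmeticFunction

namespace Pool.Agent.SX

theorem SAD_mem (h p : ℕ) : p ∈ Pr h ↔ p.Prime ∧ 7 ≤ p ∧ p ^ 10 < 2 ^ h := by
  unfold Pr
  rw [mem_filter, mem_range]
  constructor
  · exact fun hp => hp.2
  · intro hp
    refine ⟨?_, hp⟩
    by_contra hlt
    push Not at hlt
    have h1 : (2 ^ (h / 10 + 1)) ^ 10 ≤ p ^ 10 := Nat.pow_le_pow_left hlt 10
    have h2 : 2 ^ h ≤ (2 ^ (h / 10 + 1)) ^ 10 := by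
      rw [← pow_mul]
      exact Nat.pow_le_pow_right (by norm_num) (by omega)
    have := hp.2.2
    omega

theorem SAD_memBl (h h' p : ℕ) : p ∈ Bl h h' ↔ p.Prime ∧ 7 ≤ p ∧ 2 ^ h ≤ p ^ 10 ∧ p ^ 10 < 2 ^ h' := by
  unfold Bl
  rw [mem_sdiff, SAD_mem, SAD_mem]
  constructor
  · rintro ⟨⟨a, b, c⟩, d⟩
    refine ⟨a, b, ?_, c⟩
    by_contra hlt
    push Not at hlt
    exact d ⟨a, b, hlt⟩
  · rintro ⟨a, b, c, d⟩
    exact ⟨⟨a, b, d⟩, fun e => by have := e.2.2; omega⟩

theorem SAD_fac {p : ℕ} (hp : 7 ≤ p) : (0 : ℝ) < 1 - 2 / p := by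
  have h1 : (7 : ℝ) ≤ p := by exact_mod_cast hp
  have h2 : (2 : ℝ) / p ≤ 2 / 7 := by
    apply div_le_div_of_nonneg_left (by norm_num) (by norm_num) h1
  linarith

theorem SAD : SAD_stmt := by
  refine ⟨SAD_mem, SAD_memBl, ?_, ?_, ?_, ?_⟩
  · intro h h' hh
    have hsub : Pr h ⊆ Pr h' := by
      intro p hp
      rw [SAD_mem] at hp ⊢
      exact ⟨hp.1, hp.2.1, lt_of_lt_of_le hp.2.2 (Nat.pow_le_pow_right (by norm_num) hh)⟩
    unfold V Bl
    rw [mul_comm]
    exact (prod_sdiff hsub).symm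
  · intro h h' h'' hh hh'
    unfold sig
    rw [← sum_union]
    · apply sum_congr _ (fun _ _ => rfl)
      ext p
      rw [mem_union, SAD_memBl, SAD_memBl, SAD_memBl]
      have e1 : 2 ^ h ≤ 2 ^ h' := Nat.pow_le_pow_right (by norm_num) hh
      have e2 : 2 ^ h' ≤ 2 ^ h'' := Nat.pow_le_pow_right (by norm_num) hh'
      constructor
      · rintro ⟨a, b, c, d⟩
        by_cases hc : p ^ 10 < 2 ^ h'
        · exact Or.inl ⟨a, b, c, hc⟩
        · exact Or.inr ⟨a, b, by omega, d⟩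
      · rintro (⟨a, b, c, d⟩ | ⟨a, b, c, d⟩)
        · exact ⟨a, b, c, by omega⟩
        · exact ⟨a, b, by omega, d⟩
    · rw [disjoint_left]
      intro p hp hp'
      rw [SAD_memBl] at hp hp'
      have := hp.2.2.2
      have := hp'.2.2.1
      omega
  · intro h h'
    refine ⟨prod_pos fun p hp => ?_, prod_pos fun p hp => ?_, sum_nonneg fun p hp => by positivity⟩
    · rw [SAD_mem] at hp; exact SAD_fac hp.2.1
    · rw [SAD_memBl] at hp; exact SAD_fac hp.2.1
  · have h30 : Pr 30 = {7} := by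
      ext p
      rw [SAD_mem, mem_singleton]
      constructor
      · rintro ⟨a, b, c⟩
        by_contra hne
        have : 8 ≤ p := by omega
        have h1 : 8 ^ 10 ≤ p ^ 10 := Nat.pow_le_pow_left this 10
        norm_num at h1 c
        omega
      · rintro rfl
        norm_num
    unfold V
    rw [h30, prod_singleton]
    norm_num

end Pool.Agent.SX
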